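import Pool.Agent.W458.MF.EStm

/-!
# Extension of isometries of the split space
-/

open Polynomial

namespace Pool.Agent.W101.MF

open Pool.Agent.W458.MF
open Pool.Agent.W521.Frob

/-- Extension of a matrix by the identity. -/
def embHom (g l e : ℕ) : Matrix (Fin g ⊕ Fin g) (Fin g ⊕ Fin g) (ZMod l) →*
    Matrix ((Fin g ⊕ Fin g) ⊕ Fin e) ((Fin g ⊕ Fin g) ⊕ Fin e) (ZMod l) where
  toFun P := Matrix.fromBlocks P 0 0 1
  map_one' := Matrix.fromBlocks_one
  map_mul' P Q := by
    rw [Matrix.fromBlocks_multiply]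
    simp

lemma emb_isom (g l e : ℕ) (δ : (ZMod l)ˣ) :
    (isometries g l).map (Units.map (embHom g l e)) ≤ isomOf (extForm g l e δ) := by
  rintro _ ⟨P, hP, rfl⟩
  change P.val * splitForm g l * P.val.transpose = splitForm g l at hP
  change Matrix.fromBlocks P.val 0 0 1 * extForm g l e δ *
    (Matrix.fromBlocks P.val 0 0 1).transpose = extForm g l e δ
  rw [extForm, Matrix.fromBlocks_transpose, Matrix.fromBlocks_multiply,
    Matrix.fromBlocks_multiply]
  simp [hP]

lemma emb_omega (g l e : ℕ) (δ : (ZMod l)ˣ) {ω : (Matrix (Fin g ⊕ Fin g) (Fin g ⊕ Fin g) (ZMod l))ˣ}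
    (h : ω ∈ Omega g l) :
    Units.map (embHom g l e) ω ∈ ⁅isomOf (extForm g l e δ), isomOf (extForm g l e δ)⁆ := by
  have h1 : Units.map (embHom g l e) ω ∈ (Omega g l).map (Units.map (embHom g l e)) :=
    Subgroup.mem_map_of_mem _ h
  rw [Omega, Subgroup.map_commutator] at h1
  exact Subgroup.commutator_mono (emb_isom g l e δ) (emb_isom g l e δ) h1

theorem ereal1 : St_EREAL1 := by
  intro g l r e δ κ u _ _ h
  obtain ⟨B, ⟨ω, hω, rfl⟩, hB⟩ := h
  refine ⟨extElt g l e κ * (Units.map (embHom g l e) ω).val,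
    ⟨_, emb_omega g l e δ hω, rfl⟩, ?_⟩
  change ((r : ZMod l) • (extElt g l e κ * Matrix.fromBlocks ω.val 0 0 1)).charpoly = _
  rw [extElt, Matrix.fromBlocks_multiply, Matrix.fromBlocks_smul]
  simp only [Matrix.mul_zero, Matrix.zero_mul, add_zero, zero_add, mul_one, smul_zero]
  rw [Matrix.charpoly_fromBlocks_zero₁₂, hB, echar]
  congr 1
  have h2 : (r : ZMod l) • (Matrix.diagonal fun i : Fin e => if i.val = 0 then (1 : ZMod l) else -1)
      = Matrix.diagonal fun i : Fin e => if i.val = 0 then (r : ZMod l) else -(r : ZMod l) := by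
    rw [← Matrix.diagonal_smul]
    congr 1
    funext i
    simp only [Pi.smul_apply, smul_eq_mul]
    split_ifs <;> ring
  rw [h2, Matrix.charpoly_diagonal]

end Pool.Agent.W101.MF
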