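import Pool.Agent.W458.MF.OStm

/-!
MFO-WM: the polynomials `weilm`.
-/

set_option autoImplicit false

open Polynomial

namespace Pool.Agent.W101.MF

open Pool.Agent.W521.Frob Pool.Agent.W458.MF

variable {l : ℕ} [Fact l.Prime]

theorem aeval_weilm {A : Type*} [CommRing A] [Algebra (ZMod l) A] (γ : ZMod l) (u : (ZMod l)[X])
    (α θ : A) (hθ : α ^ 2 + algebraMap (ZMod l) A γ = θ * α) :
    aeval α (weilm γ u) = α ^ u.natDegree * aeval θ u := by
  unfold weilm
  rw [map_sum]
  conv_rhs => rw [aeval_eq_sum_range, Finset.mul_sum]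
  refine Finset.sum_congr rfl fun j hj => ?_
  have hj' : j ≤ u.natDegree := by
    have := Finset.mem_range.1 hj
    omega
  simp only [map_mul, map_pow, map_add, aeval_X, aeval_C]
  rw [hθ, mul_pow, Algebra.smul_def]
  have h1 : α ^ u.natDegree = α ^ j * α ^ (u.natDegree - j) := by
    rw [← pow_add, Nat.add_sub_cancel' hj']
  rw [h1]
  ring

theorem weilm_natDegree_le (γ : ZMod l) (u : (ZMod l)[X]) :
    (weilm γ u).natDegree ≤ 2 * u.natDegree := by
  unfold weilm
  refine natDegree_sum_le_of_forall_le _ _ fun j hj => ?_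
  have hj' : j ≤ u.natDegree := by
    have := Finset.mem_range.1 hj
    omega
  refine (natDegree_C_mul_le _ _).trans ?_
  refine natDegree_mul_le.trans ?_
  have h1 : ((X ^ 2 + C γ) ^ j : (ZMod l)[X]).natDegree ≤ j * 2 := by
    refine natDegree_pow_le.trans ?_
    refine Nat.mul_le_mul_left _ ?_
    compute_degree
  rw [natDegree_X_pow]
  omega

theorem weilm_coeff (γ : ZMod l) (u : (ZMod l)[X]) :
    (weilm γ u).coeff (2 * u.natDegree) = u.leadingCoeff := by
  unfold weilm
  rw [finsetSum_coeff, Finset.sum_range_succ, Finset.sum_eq_zero, zero_add, coeff_C_mul,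
    Nat.sub_self, pow_zero, mul_one]
  · have h1 : ((X ^ 2 + C γ) ^ u.natDegree : (ZMod l)[X]).Monic :=
      (monic_X_pow_add_C _ two_ne_zero).pow _
    have h2 : ((X ^ 2 + C γ) ^ u.natDegree : (ZMod l)[X]).natDegree = 2 * u.natDegree := by
      rw [(monic_X_pow_add_C _ two_ne_zero).natDegree_pow, natDegree_X_pow_add_C, mul_comm]
    rw [← h2, h1.coeff_natDegree, mul_one]
    rfl
  · intro j hj
    have hj' : j < u.natDegree := Finset.mem_range.1 hj
    rw [coeff_C_mul]
    refine mul_eq_zero_of_right _ (coeff_eq_zero_of_natDegree_lt ?_)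
    refine lt_of_le_of_lt natDegree_mul_le ?_
    have h1 : ((X ^ 2 + C γ) ^ j : (ZMod l)[X]).natDegree ≤ j * 2 := by
      refine natDegree_pow_le.trans ?_
      refine Nat.mul_le_mul_left _ ?_
      compute_degree
    rw [natDegree_X_pow]
    omega

theorem weilm_mul (γ : ZMod l) {u v : (ZMod l)[X]} (hu : u.Monic) (hv : v.Monic) :
    weilm γ (u * v) = weilm γ u * weilm γ v := by
  let A := FractionRing (ZMod l)[X]
  have hinj : Function.Injective (algebraMap (ZMod l)[X] A) := IsFractionRing.injective _ _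
  apply hinj
  rw [map_mul]
  have hx : ∀ w : (ZMod l)[X], algebraMap (ZMod l)[X] A w =
      aeval (algebraMap (ZMod l)[X] A X) w := by
    intro w
    rw [aeval_algebraMap_apply, aeval_X_left_apply]
  have hX0 : algebraMap (ZMod l)[X] A X ≠ 0 := by
    intro h
    rw [← map_zero (algebraMap (ZMod l)[X] A)] at h
    exact X_ne_zero (hinj h)
  set α : A := algebraMap (ZMod l)[X] A X with hα
  have hθ : α ^ 2 + algebraMap (ZMod l) A γ = (α + algebraMap (ZMod l) A γ / α) * α := by
    rw [add_mul, div_mul_cancel₀ _ hX0, sq]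
  rw [hx, hx, hx, aeval_weilm γ (u * v) α _ hθ, aeval_weilm γ u α _ hθ, aeval_weilm γ v α _ hθ,
    hu.natDegree_mul hv, pow_add, map_mul]
  ring

theorem wm : St_WM := by
  intro l hl γ
  have : Fact l.Prime := ⟨hl⟩
  refine ⟨fun u v hu hv => weilm_mul γ hu hv, fun t => ?_, fun u hu => ?_, fun q h hh => ?_,
    fun u hu => ?_⟩
  · unfold weilm
    rw [natDegree_X_sub_C, Finset.sum_range_succ, Finset.sum_range_one]
    simp only [coeff_sub, coeff_X_zero, coeff_C_zero, coeff_X_one, coeff_C_succ, pow_zero, pow_one,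
      Nat.sub_zero, Nat.sub_self, one_mul, mul_one, zero_sub, sub_zero, map_neg, map_one]
    ring
  · refine ⟨monic_of_natDegree_le_of_coeff_eq_one _ (weilm_natDegree_le γ u)
      (by rw [weilm_coeff, hu]), ?_⟩
    refine le_antisymm (weilm_natDegree_le γ u) (le_natDegree_of_ne_zero ?_)
    rw [weilm_coeff, hu.leadingCoeff]
    exact one_ne_zero
  · unfold weil weilm
    rw [hh.natDegree_map, Polynomial.map_sum]
    refine Finset.sum_congr rfl fun j _ => ?_
    simp
  · have hmem : u ∈ lifts (Int.castRingHom (ZMod l)) := by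
      rw [lifts_iff_coeff_lifts]
      intro n
      obtain ⟨z, hz⟩ := ZMod.intCast_surjective (u.coeff n)
      exact ⟨z, hz⟩
    obtain ⟨h, h1, h2, h3⟩ := lifts_and_natDegree_eq_and_monic hmem hu
    exact ⟨h, h3, h2, h1⟩

end Pool.Agent.W101.MF
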